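import Mathlib

namespace Pool.Agent.Results.MP_32f877_an.Volume

open Filter Topology MeasureTheory BoundedContinuousFunction

section fix
variable {X : Type} [NormedAddCommGroup X] [NormedSpace ℝ X] [CompleteSpace X]
  [SecondCountableTopology X]

noncomputable def A (h : ℝ →ᵇ X) (r : ℝ) : X := ∫ u in (0:ℝ)..r, h (Real.log u)

noncomputable def B (h : ℝ →ᵇ X) (τ : ℝ) : X := ∫ r in (0:ℝ)..τ, A h r

omit [NormedSpace ℝ X] [CompleteSpace X] in
theorem smeas (h : ℝ →ᵇ X) : StronglyMeasurable fun u => h (Real.log u) := by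
  borelize X
  exact (h.continuous.measurable.comp Real.measurable_log).stronglyMeasurable

omit [NormedSpace ℝ X] [CompleteSpace X] in
theorem intg (h : ℝ →ᵇ X) (a b : ℝ) : IntervalIntegrable (fun u => h (Real.log u)) volume a b := by
  rw [intervalIntegrable_iff]
  exact Measure.integrableOn_of_bounded (M := ‖h‖) measure_Ioc_lt_top.ne
    (smeas h).aestronglyMeasurable (Eventually.of_forall fun u => h.norm_coe_le_norm _)

omit [CompleteSpace X] in
theorem contA (h : ℝ →ᵇ X) : Continuous (A h) :=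
  intervalIntegral.continuous_primitive (intg h) 0

theorem derivA (h : ℝ →ᵇ X) {τ : ℝ} (hτ : 0 < τ) : HasDerivAt (A h) (h (Real.log τ)) τ :=
  intervalIntegral.integral_hasDerivAt_right (intg h 0 τ)
    (smeas h).stronglyMeasurableAtFilter
    (h.continuous.continuousAt.comp (Real.continuousAt_log hτ.ne'))

theorem derivB (h : ℝ →ᵇ X) (τ : ℝ) : HasDerivAt (B h) (A h τ) τ :=
  ((contA h).integral_hasStrictDerivAt 0 τ).hasDerivAt

theorem contB (h : ℝ →ᵇ X) : Continuous (B h) :=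
  continuous_iff_continuousAt.2 fun τ => (derivB h τ).continuousAt

omit [CompleteSpace X] [SecondCountableTopology X] in
theorem normB (h : ℝ →ᵇ X) {τ : ℝ} (hτ : 0 ≤ τ) : ‖B h τ‖ ≤ ‖h‖ * τ ^ 2 := by
  have := intervalIntegral.norm_integral_le_of_norm_le_const (a := 0) (b := τ) (f := A h)
    (C := ‖h‖ * τ) fun r hr => by
      rw [Set.uIoc_of_le hτ] at hr
      have := intervalIntegral.norm_integral_le_of_norm_le_const (a := 0) (b := r)
        (f := fun u => h (Real.log u)) (C := ‖h‖) fun u _ => h.norm_coe_le_norm _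
      rw [sub_zero, abs_of_pos hr.1] at this
      exact this.trans (mul_le_mul_of_nonneg_left hr.2 (norm_nonneg _))
  rw [sub_zero, abs_of_nonneg hτ] at this
  calc _ ≤ ‖h‖ * τ * τ := this
    _ = _ := by ring

omit [CompleteSpace X] in
theorem subB (h k : ℝ →ᵇ X) (τ : ℝ) : B h τ - B k τ = B (h - k) τ := by
  unfold B
  rw [← intervalIntegral.integral_sub ((contA h).intervalIntegrable _ _)
    ((contA k).intervalIntegrable _ _)]
  congr 1
  funext r
  unfold A
  rw [← intervalIntegral.integral_sub (intg h _ _) (intg k _ _)]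
  rfl

theorem exists_sol {G : X → X} {L : NNReal} (hG : LipschitzWith L G) {v : X} (hv : G v = 0)
    (P : X) {τ0 : ℝ} (h0 : 0 < τ0) (hL : (L : ℝ) * τ0 ≤ 1 / 2) :
    ∃ w w' : ℝ → X, ∀ τ, 0 < τ → τ < τ0 → HasDerivAt w (w' τ) τ ∧
      HasDerivAt w' ((τ + τ ^ 2 / 2)⁻¹ • G (w τ)) τ ∧
      ‖w τ - v - τ • P‖ ≤ 2 * L * ‖P‖ * τ ^ 2 := by
  let σ : ℝ → ℝ := fun s => min (Real.exp s) τ0
  have hσ : ∀ s, 0 < σ s := fun s => lt_min (Real.exp_pos s) h0
  have hσ2 : ∀ s, σ s ≤ τ0 := fun s => min_le_right _ _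
  have hσc : Continuous σ := Real.continuous_exp.min continuous_const
  have key : ∀ (s : ℝ) (a b : X), ‖(σ s + σ s ^ 2 / 2)⁻¹ • G a - (σ s + σ s ^ 2 / 2)⁻¹ • G b‖
      ≤ (σ s)⁻¹ * (L * ‖a - b‖) := by
    intro s a b
    have := hσ s
    rw [← smul_sub, norm_smul, Real.norm_eq_abs, abs_of_pos (by positivity)]
    refine mul_le_mul (inv_anti₀ this (by nlinarith)) ?_ (norm_nonneg _) (by positivity)
    simpa [dist_eq_norm] using hG.dist_le_mul a b
  have bound : ∀ (h : ℝ →ᵇ X) (s : ℝ),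
      ‖(σ s + σ s ^ 2 / 2)⁻¹ • G (v + σ s • P + B h (σ s))‖ ≤ L * ‖P‖ + ‖h‖ / 2 := by
    intro h s
    have h1 := key s (v + σ s • P + B h (σ s)) v
    have h2 := hσ s
    rw [hv, smul_zero, sub_zero, add_assoc, add_sub_cancel_left] at h1
    have h3 : ‖σ s • P + B h (σ s)‖ ≤ σ s * ‖P‖ + ‖h‖ * σ s ^ 2 := by
      refine (norm_add_le _ _).trans (add_le_add ?_ (normB h h2.le))
      rw [norm_smul, Real.norm_eq_abs, abs_of_pos h2]
    rw [add_assoc]
    calc _ ≤ (σ s)⁻¹ * (L * (σ s * ‖P‖ + ‖h‖ * σ s ^ 2)) := h1.trans (by gcongr)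
      _ = L * ‖P‖ + ‖h‖ * (L * σ s) := by field_simp
      _ ≤ L * ‖P‖ + ‖h‖ * (L * τ0) := by have := hσ2 s; gcongr
      _ ≤ L * ‖P‖ + ‖h‖ * (1 / 2) := by gcongr
      _ = _ := by ring
  let Φ : (ℝ →ᵇ X) → (ℝ →ᵇ X) := fun h => BoundedContinuousFunction.ofNormedAddCommGroup
    (fun s => (σ s + σ s ^ 2 / 2)⁻¹ • G (v + σ s • P + B h (σ s)))
    (by
      refine Continuous.smul (Continuous.inv₀ (by fun_prop) fun s => ?_)
        (hG.continuous.comp ?_)
      · have := hσ s; positivity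
      · have := (contB h).comp hσc
        exact (continuous_const.add (hσc.smul continuous_const)).add this)
    _ (bound h)
  have hΦ : ContractingWith (1 / 2) Φ := by
    refine ⟨by norm_num, LipschitzWith.of_dist_le_mul fun h k => ?_⟩
    rw [BoundedContinuousFunction.dist_le (by positivity)]
    intro s
    rw [dist_eq_norm, dist_eq_norm]
    have h2 := hσ s
    refine (key s _ _).trans ?_
    rw [add_sub_add_left_eq_sub, subB]
    calc _ ≤ (σ s)⁻¹ * (L * (‖h - k‖ * σ s ^ 2)) := by have := normB (h - k) h2.le; gcongr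
      _ = ‖h - k‖ * (L * σ s) := by field_simp
      _ ≤ ‖h - k‖ * (L * τ0) := by have := hσ2 s; gcongr
      _ ≤ ‖h - k‖ * (1 / 2) := by gcongr
      _ = _ := by push_cast; ring
  obtain ⟨h, hh⟩ : ∃ h, Φ h = h := ⟨hΦ.fixedPoint Φ, hΦ.fixedPoint_isFixedPt⟩
  have hn : ‖h‖ ≤ 2 * L * ‖P‖ := by
    have : ‖Φ h‖ ≤ L * ‖P‖ + ‖h‖ / 2 :=
      (BoundedContinuousFunction.norm_le (by positivity)).2 (bound h)
    rw [hh] at this
    linarith
  refine ⟨fun τ => v + τ • P + B h τ, fun τ => P + A h τ, fun τ h1 h2 => ⟨?_, ?_, ?_⟩⟩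
  · have := (((hasDerivAt_id τ).smul_const P).const_add v).add (derivB h τ)
    rw [one_smul] at this
    exact this
  · have h3 : σ (Real.log τ) = τ := by
      simp only [σ]; rw [Real.exp_log h1, min_eq_left h2.le]
    have h4 : h (Real.log τ) = (τ + τ ^ 2 / 2)⁻¹ • G (v + τ • P + B h τ) := by
      conv_lhs => rw [← hh]
      change (σ (Real.log τ) + σ (Real.log τ) ^ 2 / 2)⁻¹ •
        G (v + σ (Real.log τ) • P + B h (σ (Real.log τ))) = _
      rw [h3]
    rw [← h4]
    exact (derivA h h1).const_add P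
  · have : v + τ • P + B h τ - v - τ • P = B h τ := by abel
    rw [this]
    exact (normB h h1.le).trans (by gcongr)

end fix

theorem exists_time {τ0 : ℝ} (h0 : 0 < τ0) : ∃ τ : ℝ → ℝ, ∀ t, 0 ≤ t →
    0 < τ t ∧ τ t < τ0 ∧ HasDerivAt τ (-(τ t + τ t ^ 2 / 2) ^ 2) t := by
  have htop : Tendsto (fun s => Real.sinh s - s) atTop atTop := by
    refine tendsto_atTop_mono' atTop ?_ (tendsto_atTop_add_const_right atTop (-3) tendsto_id)
    filter_upwards [eventually_ge_atTop 0] with s hs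
    have h1 := Real.quadratic_le_exp_of_nonneg hs
    have h2 : Real.exp (-s) ≤ 1 := Real.exp_le_one_iff.2 (by linarith)
    rw [Real.sinh_eq]
    simp only [id]
    nlinarith [sq_nonneg (s - 3)]
  have hbot : Tendsto (fun s => Real.sinh s - s) atBot atBot := by
    have := tendsto_neg_atTop_atBot.comp (htop.comp tendsto_neg_atBot_atTop)
    refine this.congr fun s => ?_
    simp only [Function.comp, Real.sinh_neg]; ring
  have hsurj : Function.Surjective fun s => Real.sinh s - s :=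
    Continuous.surjective (by fun_prop) htop hbot
  let Ψ := Real.sinh_sub_id_strictMono.orderIsoOfSurjective _ hsurj
  have hΨ : ∀ s, Ψ s = Real.sinh s - s := fun s => rfl
  let E0 : ℝ := 2 / τ0
  have hE0 : 0 < E0 := by positivity
  let E : ℝ → ℝ := fun t => Ψ.symm (t + Ψ E0)
  refine ⟨fun t => 2 / (Real.exp (E t) - 1), fun t ht => ?_⟩
  have h1 : E0 ≤ E t := by
    simp only [E]
    rw [OrderIso.le_symm_apply]; linarith
  have h2 : E t + 1 < Real.exp (E t) := Real.add_one_lt_exp (by linarith)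
  have h3 : 0 < Real.exp (E t) - 1 := by linarith
  refine ⟨by positivity, ?_, ?_⟩
  · rw [div_lt_iff₀ h3]
    have : τ0 * E0 = 2 := by simp only [E0]; field_simp
    nlinarith
  · have hc : Real.cosh (E t) - 1 = (Real.exp (E t) - 1) ^ 2 / (2 * Real.exp (E t)) := by
      rw [Real.cosh_eq, Real.exp_neg]; field_simp; ring
    have hd : HasDerivAt Ψ.symm (Real.cosh (E t) - 1)⁻¹ (t + Ψ E0) := by
      refine HasDerivAt.of_local_left_inverse (f := fun s => Real.sinh s - s)
        Ψ.symm.continuous.continuousAt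
        ((Real.hasDerivAt_sinh _).sub (hasDerivAt_id _)) (by rw [hc]; positivity)
        (Eventually.of_forall fun y => ?_)
      rw [← hΨ, OrderIso.apply_symm_apply]
    have hE : HasDerivAt E (Real.cosh (E t) - 1)⁻¹ t := hd.comp_add_const t (Ψ E0)
    have := (hasDerivAt_const t (2:ℝ)).div (hE.exp.sub_const 1) h3.ne'
    refine this.congr_deriv ?_
    rw [hc]
    have := Real.exp_pos (E t)
    field_simp
    ring


/-- Euclidean 3-space. -/
abbrev E3 : Type := EuclideanSpace ℝ (Fin 3)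

/-- Volume of the tetrahedron with vertices `p 0, ..., p 3`. -/
noncomputable def vol (p : Fin 4 → E3) : ℝ :=
  1 / 6 * |(Matrix.of fun i j : Fin 3 => (p i.succ - p 0) j).det|

/-- Newtonian force on body `i`. -/
noncomputable def force (m : Fin 4 → ℝ) (p : Fin 4 → E3) (i : Fin 4) : E3 :=
  ∑ j ∈ Finset.univ.erase i, (m i * m j / ‖p j - p i‖ ^ 3) • (p j - p i)

/-- `q` is a collision-free solution of Newton's equations for all `t ≥ 0`. -/
def IsSol (m : Fin 4 → ℝ) (q : ℝ → Fin 4 → E3) : Prop :=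
  (∀ t, 0 ≤ t → ∀ i j, i ≠ j → q t i ≠ q t j) ∧
  ∃ q' q'' : ℝ → Fin 4 → E3, ∀ t, 0 ≤ t → ∀ i,
    HasDerivAt (fun s => q s i) (q' t i) t ∧ HasDerivAt (fun s => q' s i) (q'' t i) t ∧
    m i • q'' t i = force m (q t) i

noncomputable def ms : Fin 4 → ℝ := ![1008 / 151, 1360 / 151, 1360 / 151, 1008 / 151]

noncomputable def xs : Fin 4 → ℝ := ![3, 1, -1, -3]

noncomputable def F (p : Fin 4 → E3) : Fin 4 → E3 := fun i =>
  ∑ j ∈ Finset.univ.erase i, (ms j / ‖p j - p i‖ ^ 3) • (p j - p i)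

noncomputable def v0 : Fin 4 → E3 := fun i => xs i • EuclideanSpace.single 0 1

noncomputable def Ph : Fin 4 → E3 := ![!₂[0, 0, 3], !₂[1, 0, 1], !₂[0, 1, -1], !₂[0, 0, -3]]

theorem v0_sub (i j : Fin 4) : v0 j - v0 i = (xs j - xs i) • EuclideanSpace.single 0 1 := by
  simp only [v0, sub_smul]

theorem v0_ne {i j : Fin 4} (h : i ≠ j) : v0 j - v0 i ≠ 0 := by
  rw [v0_sub]
  refine smul_ne_zero ?_ (by simp)
  fin_cases i <;> fin_cases j <;> simp [xs] at h ⊢ <;> norm_num

theorem F_v0 : F v0 + v0 = 0 := by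
  funext i
  have : ∀ j, (ms j / ‖v0 j - v0 i‖ ^ 3) • (v0 j - v0 i) =
      (ms j / |xs j - xs i| ^ 3 * (xs j - xs i)) • EuclideanSpace.single 0 1 := by
    intro j
    rw [v0_sub, norm_smul, smul_smul]
    simp
  simp only [F, Pi.add_apply, this, Pi.zero_apply]
  rw [← Finset.sum_smul, v0, ← add_smul]
  refine smul_eq_zero_of_left ?_ _
  rw [Finset.sum_erase _ (by simp)]
  fin_cases i <;> simp [Fin.sum_univ_four, ms, xs] <;> norm_num

theorem F_diff : ContDiffAt ℝ 1 (fun p => F p + p) v0 := by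
  refine ContDiffAt.add (contDiffAt_pi.2 fun i => ContDiffAt.sum fun j hj => ?_) contDiffAt_id
  have hne := v0_ne (Finset.ne_of_mem_erase hj).symm
  have h1 : ContDiffAt ℝ 1 (fun p : Fin 4 → E3 => p j - p i) v0 := by fun_prop
  exact (contDiffAt_const.div ((h1.norm ℝ hne).pow 3) (pow_ne_zero _ (norm_ne_zero_iff.2 hne))).smul h1

theorem F_hom {u : ℝ} (hu : 0 < u) (w : Fin 4 → E3) : F (u⁻¹ • w) = u ^ 2 • F w := by
  funext i
  simp only [F, Pi.smul_apply, Finset.smul_sum, ← smul_sub, norm_smul, smul_smul, norm_inv,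
    Real.norm_eq_abs, abs_of_pos hu]
  refine Finset.sum_congr rfl fun j _ => ?_
  congr 1
  by_cases h : ‖w j - w i‖ = 0
  · simp [h]
  · field_simp

noncomputable def D (s : ℝ) (R : Fin 4 → E3) : ℝ :=
  (Matrix.of fun i j : Fin 3 => (![(Ph i.succ - Ph 0) 0 + s * (R i.succ - R 0) 0 - (R i.succ - R 0) 2,
    (Ph i.succ - Ph 0) 1 + s * (R i.succ - R 0) 1,
    (Ph i.succ - Ph 0) 2 + s * (R i.succ - R 0) 2] : Fin 3 → ℝ) j).det

theorem vol_eq (u s : ℝ) (R : Fin 4 → E3) :
    vol (u • (v0 + s • Ph + s ^ 2 • R)) = 1 / 6 * |(u * s) ^ 3 * D s R| := by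
  unfold vol D
  refine congrArg (fun x : ℝ => 1 / 6 * |x|) ?_
  simp only [Matrix.det_fin_three, Matrix.of_apply, Pi.smul_apply, Pi.add_apply, PiLp.sub_apply,
    PiLp.smul_apply, PiLp.add_apply, smul_eq_mul, Matrix.cons_val_zero, Matrix.cons_val_one,
    Matrix.cons_val, v0]
  simp [Ph, xs]
  ring

theorem D_cont : Continuous fun z : ℝ × (Fin 4 → E3) => D z.1 z.2 := by
  simp only [D, Matrix.det_fin_three, Matrix.of_apply, Matrix.cons_val_zero, Matrix.cons_val_one,
    Matrix.cons_val]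
  fun_prop

theorem D_zero : D 0 0 = -6 := by
  simp [D, Matrix.det_fin_three, Ph]
  norm_num

theorem result : ∃ (m : Fin 4 → ℝ) (q : ℝ → Fin 4 → E3) (c C : ℝ),
    (∀ i, 0 < m i) ∧ IsSol m q ∧ 0 < c ∧ c ≤ C ∧ ∀ t, 0 ≤ t → c ≤ vol (q t) ∧ vol (q t) ≤ C := by
  obtain ⟨K, U, hU, hK⟩ := F_diff.exists_lipschitzOnWith
  obtain ⟨G, hG, hGU⟩ := hK.extend_finite_dimension
  set L := lipschitzExtensionConstant (Fin 4 → E3) * K
  have hv : G v0 = 0 := by rw [← hGU (mem_of_mem_nhds hU)]; exact F_v0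
  have hne : ∀ᶠ p in 𝓝 v0, ∀ i j : Fin 4, i ≠ j → p j - p i ≠ 0 := by
    simp only [eventually_all]
    intro i j h
    have : ContinuousAt (fun p : Fin 4 → E3 => p j - p i) v0 := by fun_prop
    exact this.eventually_ne (v0_ne h)
  have hT : Tendsto (fun z : ℝ × (Fin 4 → E3) => v0 + z.1 • Ph + z.1 ^ 2 • z.2) (𝓝 0) (𝓝 v0) := by
    have : Continuous (fun z : ℝ × (Fin 4 → E3) => v0 + z.1 • Ph + z.1 ^ 2 • z.2) := by fun_prop
    simpa using this.tendsto 0
  have hD : Tendsto (fun z : ℝ × (Fin 4 → E3) => D z.1 z.2) (𝓝 0) (𝓝 (-6)) := by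
    rw [← D_zero]; exact D_cont.tendsto 0
  have hev := ((hT.eventually hU).and (hT.eventually hne)).and
    (hD.eventually (Ioo_mem_nhds (a := -7) (b := -5) (by norm_num) (by norm_num)))
  obtain ⟨δ, hδ, hδ2⟩ := Metric.eventually_nhds_iff.1 hev
  let α : ℝ := 2 * L * ‖Ph‖ / δ + 1
  have hα : 0 < α := by positivity
  let τ0 : ℝ := min (min (δ / α) 1) (1 / (2 * (L + 1)))
  have hτ0 : 0 < τ0 := by positivity
  have hL : (L : ℝ) * τ0 ≤ 1 / 2 := by
    calc (L : ℝ) * τ0 ≤ (L + 1) * (1 / (2 * (L + 1))) :=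
          mul_le_mul (by linarith) (min_le_right _ _) hτ0.le (by positivity)
      _ = 1 / 2 := by field_simp
  obtain ⟨w, w', hw⟩ := exists_sol hG hv (α • Ph) hτ0 hL
  obtain ⟨τ, hτ⟩ := exists_time hτ0
  have good : ∀ t, 0 ≤ t → ∃ R, w (τ t) = v0 + (α * τ t) • Ph + (α * τ t) ^ 2 • R ∧
      dist ((α * τ t, R) : ℝ × (Fin 4 → E3)) 0 < δ := by
    intro t ht
    obtain ⟨h1, h2, -⟩ := hτ t ht
    obtain ⟨-, -, h3⟩ := hw _ h1 h2
    have h4 : 0 < α * τ t := by positivity
    refine ⟨((α * τ t) ^ 2)⁻¹ • (w (τ t) - v0 - τ t • α • Ph), ?_, ?_⟩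
    · rw [smul_smul, mul_inv_cancel₀ (by positivity), one_smul, smul_smul, mul_comm (τ t)]
      abel
    · rw [dist_zero_right, Prod.norm_def, max_lt_iff]
      constructor
      · have : τ t < δ / α := h2.trans_le ((min_le_left _ _).trans (min_le_left _ _))
        rw [lt_div_iff₀ hα] at this
        simp only [Real.norm_eq_abs, abs_of_pos h4]
        linarith
      · simp only
        rw [norm_smul, norm_inv, Real.norm_eq_abs, abs_of_pos (by positivity)]
        rw [norm_smul, Real.norm_eq_abs, abs_of_pos hα] at h3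
        calc _ ≤ ((α * τ t) ^ 2)⁻¹ * (2 * L * (α * ‖Ph‖) * τ t ^ 2) := by gcongr
          _ = 2 * L * ‖Ph‖ / α := by field_simp
          _ < δ := by
            rw [div_lt_iff₀ hα]
            have : δ * α = 2 * L * ‖Ph‖ + δ := by simp only [α]; field_simp
            linarith
  refine ⟨ms, fun t => (τ t + τ t ^ 2 / 2)⁻¹ • w (τ t), 1 / 6 * ((α / 2) ^ 3 * 5),
    1 / 6 * (α ^ 3 * 7), ?_, ⟨?_, fun t => (1 + τ t) • w (τ t) - (τ t + τ t ^ 2 / 2) • w' (τ t),
      fun t => F ((τ t + τ t ^ 2 / 2)⁻¹ • w (τ t)), ?_⟩, by positivity, ?_, ?_⟩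
  · intro i; fin_cases i <;> simp [ms]
  · intro t ht i j hij he
    obtain ⟨R, h1, h2⟩ := good t ht
    have h3 := (hδ2 h2).1.2 i j hij
    simp only at h3
    rw [← h1] at h3
    have h4 := (hτ t ht).1
    simp only [Pi.smul_apply] at he
    rw [smul_right_inj (by positivity)] at he
    exact h3 (by rw [he, sub_self])
  · intro t ht i
    obtain ⟨h1, h2, h3⟩ := hτ t ht
    obtain ⟨h4, h5, -⟩ := hw _ h1 h2
    obtain ⟨R, h6, h7⟩ := good t ht
    have h8 := (hδ2 h7).1.1
    simp only at h8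
    rw [← h6] at h8
    rw [← hGU h8] at h5
    have hu : 0 < τ t + τ t ^ 2 / 2 := by positivity
    have d1 : HasDerivAt (fun s => τ s + τ s ^ 2 / 2)
        (-(τ t + τ t ^ 2 / 2) ^ 2 * (1 + τ t)) t :=
      (h3.add ((h3.pow 2).div_const 2)).congr_deriv (by simp; ring)
    have d2 := h4.scomp t h3
    have d3 := h5.scomp t h3
    refine ⟨hasDerivAt_pi.1 ?_ i, hasDerivAt_pi.1 ?_ i, ?_⟩
    · refine ((d1.inv hu.ne').smul d2).congr_deriv ?_
      simp only [Function.comp, Pi.inv_apply]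
      match_scalars <;> field_simp
    · refine (((h3.const_add 1).smul d2).sub (d1.smul d3)).congr_deriv ?_
      rw [F_hom hu]
      simp only [Function.comp]
      match_scalars <;> field_simp <;> ring
    · simp only [F, force, Finset.smul_sum, smul_smul]
      exact Finset.sum_congr rfl fun j _ => by rw [mul_div_assoc]
  · have : (α / 2) ^ 3 * 5 ≤ α ^ 3 * 7 := by have := pow_pos hα 3; nlinarith
    linarith
  · intro t ht
    obtain ⟨h1, h2, -⟩ := hτ t ht
    obtain ⟨R, h6, h7⟩ := good t ht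
    have h8 := (hδ2 h7).2
    simp only at h8
    have h9 : τ t ≤ 1 := h2.le.trans ((min_le_left _ _).trans (min_le_right _ _))
    have e : (τ t + τ t ^ 2 / 2)⁻¹ * (α * τ t) = α / (1 + τ t / 2) := by field_simp
    have e1 : α / 2 ≤ α / (1 + τ t / 2) := by gcongr; linarith
    have e2 : α / (1 + τ t / 2) ≤ α := div_le_self hα.le (by linarith)
    simp only
    rw [h6, vol_eq, e, abs_mul, abs_of_pos (by positivity), abs_of_neg (by linarith)]
    constructor
    · gcongr; linarith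
    · gcongr <;> linarith

end Pool.Agent.Results.MP_32f877_an.Volume
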